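import Pool.Agent.TH254.RF.Free

/-!
Positive definite hermitian forms over integral group rings which are generated by vectors of
norm at most two are induced from finite subgroups.

Let `G` be any group. The hermitian form `lam` on the finitely generated projective
`ℤ[G]`-module `L` is nonsingular and positive definite, and the abelian group `L` is generated by
vectors `x` whose norm, the coefficient of `lam x x` at `1`, is at most two. Then `(L, lam)` is
the orthogonal sum of forms induced from finite subgroups `F i` of `G` (with unimodular lattices
`K i`). If `G` is torsion-free, `L` is free and the form is extended from `ℤ`.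
The definitions are in `Pool.Agent.TH254.RF.Defs`.

Idea of the proof. A Bessel inequality for integral forms and the dual frame show that a vector of
bounded norm has boundedly many nonzero coordinates; hence only finitely many indecomposable
vectors of norm at most two are not orthogonal to a given vector (`Frame`). For such vectors paths
of non-orthogonal vectors can be shortened to length two, so the connected components are finite
(`Classes`); they are permuted by `G` with finite stabilisers and finitely many orbits
(`Induced`).
-/

set_option autoImplicit false

namespace Pool.Agent.Results.MP_9d1ffa_al.RootForms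

open Pool.Agent.TH254.RF

universe u v

theorem result (G : Type u) [Group G] (L : Type v) [AddCommGroup L]
    [Module (MonoidAlgebra ℤ G) L] [Module.Finite (MonoidAlgebra ℤ G) L]
    [Module.Projective (MonoidAlgebra ℤ G) L] (lam : L → L → MonoidAlgebra ℤ G)
    (h : IsHermitian lam) (hpos : PositiveDefinite lam) (hns : Nonsingular lam)
    -- the vectors of norm at most two generate the abelian group `L`
    (hgen : AddSubgroup.closure {x : L | (lam x x).coeff 1 ≤ 2} = ⊤) :
    (∃ (m : ℕ) (F : Fin m → Subgroup G) (K : Fin m → AddSubgroup L), InducedFrom lam F K) ∧
    -- torsion-free groups
    ((∀ (g : G) (k : ℕ), 0 < k → g ^ k = 1 → g = 1) →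
      ∃ (N : ℕ) (v : Module.Basis (Fin N) (MonoidAlgebra ℤ G) L) (C : Matrix (Fin N) (Fin N) ℤ),
        IsUnit C.det ∧ ∀ i j, lam (v i) (v j) = MonoidAlgebra.single 1 (C i j)) := by
  obtain ⟨m, F, K, hI⟩ := main_induced h hpos hns hgen
  exact ⟨⟨m, F, K, hI⟩, fun hG => main_free h hpos hns hG hI⟩

end Pool.Agent.Results.MP_9d1ffa_al.RootForms
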