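import Pool.Agent.TH57.Thr.VCK

set_option autoImplicit false

/-! For every group `G` (torsion allowed), every invertible matrix over `ℤG` of operator norm less
than `3 / √2` is, up to permutations and multiplication of rows and columns by group elements,
block diagonal with blocks over integral group rings of virtually cyclic subgroups; in particular
it is a product of invertible matrices over such group rings. -/

namespace Pool.Agent.Results.MP_9d1ffa_al.SmallNormClasses

open TH57.Thr

theorem result (G : Type) [Group G] (n : ℕ)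
    (A : (Matrix (Fin n) (Fin n) (MonoidAlgebra ℤ G))ˣ)
    (c : ℝ) (hc0 : 0 < c) (hc : c ^ 2 < 9 / 2)
    (hA : NormLE (A : Matrix (Fin n) (Fin n) (MonoidAlgebra ℤ G)) c) :
    (∃ (r : Fin n → Fin n ⊕ Fin n) (V : Fin n ⊕ Fin n → Subgroup G) (u w : Fin n → G)
        (σ : Equiv.Perm (Fin n)),
      (∀ b, ∃ s : V b, (Subgroup.zpowers s).FiniteIndex) ∧
      (∀ i j g, ((A : Matrix (Fin n) (Fin n) (MonoidAlgebra ℤ G)) (σ i) j).coeff g ≠ 0 →
        r i = r j ∧ u (σ i) * g * (w j)⁻¹ ∈ V (r i)) ∧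
      (∀ i j g, ((↑A⁻¹ : Matrix (Fin n) (Fin n) (MonoidAlgebra ℤ G)) i (σ j)).coeff g ≠ 0 →
        r i = r j ∧ w i * g * (u (σ j))⁻¹ ∈ V (r i))) ∧
    A ∈ ⨆ V : {V : Subgroup G // ∃ s : V, (Subgroup.zpowers s).FiniteIndex},
      (Units.map ((MonoidAlgebra.mapDomainRingHom ℤ V.1.subtype).mapMatrix :
        Matrix (Fin n) (Fin n) (MonoidAlgebra ℤ V.1) →+*
          Matrix (Fin n) (Fin n) (MonoidAlgebra ℤ G)).toMonoidHom).range :=
  small_form A c hc0 hc hA

end Pool.Agent.Results.MP_9d1ffa_al.SmallNormClasses
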